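import Pool.Agent.X104.AnosovQC

/-!
# MP_5c499f_an: quasiconformal Anosov diffeomorphisms with an invariant complex structure
-/

set_option autoImplicit false

open scoped Manifold ContDiff Topology Bundle
open Set Filter Bundle

namespace Pool.Agent.Results.MP_5c499f_an.ComplexQuasiconformalToral

open Pool.Agent.H721R2 Pool.Agent.H789R2.AN Pool.Agent.H779R2.An Pool.Agent.H779R2.To
  Pool.Agent.H779R2.Nu Pool.Agent.H147R2.RI Pool.Agent.H576R3.CF

/-- **Uniformly quasiconformal Anosov diffeomorphisms with an invariant complex structure are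
infra-toral automorphisms; no recurrence is assumed.**
Let `f` be a `C²` Anosov diffeomorphism of a closed connected smooth manifold `M`, with splitting
`TM = Es ⊕ Eu`, both bundles of positive rank `ds`, `du`.  Suppose that `f` is uniformly
quasiconformal on `Es` and on `Eu` (`UniformlyQC`) and that one of the following holds:
* `du ≤ ds` and `Eu` carries a continuous `Df`-invariant complex structure (`InvComplexOn`);
* `ds ≤ du` and `Es` carries one;
* `f` preserves a continuous almost complex structure on `M` (`PreservesAC`), for instance `M` is a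
  complex manifold and `f` is holomorphic.
Then `f` is topologically conjugate to a hyperbolic infra-toral automorphism, in particular
finitely covered by a hyperbolic toral automorphism: there are a matrix `A` in `GL(m, ℤ)` without
eigenvalues of modulus one and a covering map `P : ℝᵐ → M` with `f ∘ P = P ∘ A`, such that `P` is
`ℤᵐ`-periodic, every fibre of `P` is a finite union of `ℤᵐ`-orbits, and the deck transformations
of `P` (which are transitive on the fibres) are affine maps `x ↦ B x + c` with `B ∈ GL(m, ℤ)`. -/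
theorem result (E : Type*) [NormedAddCommGroup E] [NormedSpace ℝ E] [FiniteDimensional ℝ E]
    (M : Type*) [TopologicalSpace M] [T2Space M] [CompactSpace M] [ConnectedSpace M]
    [ChartedSpace E M] [IsManifold 𝓘(ℝ, E) ∞ M] (f : Diffeomorph 𝓘(ℝ, E) 𝓘(ℝ, E) M M 1)
    (hf2 : ContMDiff 𝓘(ℝ, E) 𝓘(ℝ, E) 2 f) (hf2' : ContMDiff 𝓘(ℝ, E) 𝓘(ℝ, E) 2 f.symm)
    (Es Eu : ∀ x : M, Submodule ℝ (TangentSpace 𝓘(ℝ, E) x)) (hA : IsAnosov f Es Eu)
    (N : TangentBundle 𝓘(ℝ, E) M → ℝ) (hN : IsTangentNorm N)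
    (hqs : UniformlyQC f N Es) (hqu : UniformlyQC f N Eu) (ds du : ℕ) (hds1 : 1 ≤ ds)
    (hdu1 : 1 ≤ du) (hds : ∀ x, Module.finrank ℝ (Es x) = ds)
    (hdu : ∀ x, Module.finrank ℝ (Eu x) = du)
    (hJ : (du ≤ ds ∧ ∃ J, InvComplexOn f Eu J) ∨ (ds ≤ du ∧ ∃ J, InvComplexOn f Es J) ∨
      ∃ J : ∀ x : M, TangentSpace 𝓘(ℝ, E) x →ₗ[ℝ] TangentSpace 𝓘(ℝ, E) x, PreservesAC f J) :
    ∃ (m : ℕ) (A : Matrix (Fin m) (Fin m) ℤ) (P : (Fin m → ℝ) → M),
      IsUnit A.det ∧ HypMat A ∧ IsCoveringMap P ∧ Function.Surjective P ∧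
      (∀ x, f (P x) = P ((A.map (Int.cast : ℤ → ℝ)).mulVec x)) ∧
      (∀ (x : Fin m → ℝ) (z : Fin m → ℤ), P (x + fun i => (z i : ℝ)) = P x) ∧
      (∀ a, ∃ S : Finset (Fin m → ℝ), ∀ x, P x = a → ∃ s ∈ S, ∃ z : Fin m → ℤ,
        x = s + fun i => (z i : ℝ)) ∧
      ∀ x y, P x = P y → ∃ (B : Matrix (Fin m) (Fin m) ℤ) (c : Fin m → ℝ), IsUnit B.det ∧
        y = (B.map (Int.cast : ℤ → ℝ)).mulVec x + c ∧
        ∀ w, P ((B.map (Int.cast : ℤ → ℝ)).mulVec w + c) = P w := by
  obtain ⟨m, A, P, h1, h2, h3, h4, h5, h6, h7⟩ :=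
    (Pool.Agent.X104.AnosovQC.main E M f hf2 hf2' Es Eu hA N hN hqs hqu ds du hds1 hdu1 hds hdu
      hJ).1
  exact ⟨m, A, P, h1, h2, h3, h4, h5, h6, fib_fin P h3 h6, h7⟩

end Pool.Agent.Results.MP_5c499f_an.ComplexQuasiconformalToral
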