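import Pool.Agent.X104.TorFac

/-!
# MP_5c499f_an: Anosov diffeomorphisms with an affine toral factor of any dimension
-/

set_option autoImplicit false

open scoped Manifold ContDiff Topology
open Set Filter

namespace Pool.Agent.Results.MP_5c499f_an.ToralFactorIff

open Pool.Agent.H721R2 Pool.Agent.H789R2.AN Pool.Agent.W740.TU Pool.Agent.X104.TorFac
open Pool.Agent.H779R2.To (HypMat)

/-- **Anosov diffeomorphisms that are semiconjugate to an affine automorphism of some torus.**
Let `f` be a `C¹` Anosov diffeomorphism of a closed connected smooth manifold `M`.  The following are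
equivalent.
* `f` is topologically conjugate to a hyperbolic toral automorphism: there are a homeomorphism `h`
  from `M` onto a torus `(ℝ/ℤ)^m` and an integer matrix `A` with determinant `±1` and without
  eigenvalues of modulus one such that `h ∘ f = A ∘ h`.
* For some `k` (nothing relates `k` to the dimension of `M`), some integer `k × k` matrix `A` with
  determinant `±1` (possibly with eigenvalues of modulus one) and some `b ∈ (ℝ/ℤ)ᵏ` there is a
  continuous map `h : M → (ℝ/ℤ)ᵏ` (not assumed to be onto) with `h ∘ f = A ∘ h + b` that is injective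
  on the local unstable sets of some size (`UnstInj f.symm h`): for some neighbourhood `𝒰` of the
  diagonal one has `h x ≠ h y` if `x ≠ y` and `f⁻ⁿ x`, `f⁻ⁿ y` are `𝒰`-close for all `n ≥ 0`.
* There are `k`, `A`, `b` and `h` as before such that `h` is injective on the local stable sets of
  some size (`UnstInj f h`). -/
theorem result (E : Type*) [NormedAddCommGroup E] [NormedSpace ℝ E] [FiniteDimensional ℝ E]
    (M : Type*) [TopologicalSpace M] [T2Space M] [CompactSpace M] [ConnectedSpace M]
    [ChartedSpace E M] [IsManifold 𝓘(ℝ, E) ∞ M] (f : Diffeomorph 𝓘(ℝ, E) 𝓘(ℝ, E) M M 1)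
    (Es Eu : ∀ x : M, Submodule ℝ (TangentSpace 𝓘(ℝ, E) x)) (hA : IsAnosov f Es Eu) :
    List.TFAE [
      ∃ (m : ℕ) (A : Matrix (Fin m) (Fin m) ℤ) (h : M ≃ₜ (Fin m → AddCircle (1 : ℝ))),
        IsUnit A.det ∧ HypMat A ∧ ∀ x i, h (f x) i = ∑ j, A i j • h x j,
      ∃ (k : ℕ) (A : Matrix (Fin k) (Fin k) ℤ) (b : Fin k → AddCircle (1 : ℝ))
        (h : C(M, Fin k → AddCircle (1 : ℝ))), IsUnit A.det ∧
        (∀ x i, h (f x) i = ∑ j, A i j • h x j + b i) ∧ UnstInj f.symm h,
      ∃ (k : ℕ) (A : Matrix (Fin k) (Fin k) ℤ) (b : Fin k → AddCircle (1 : ℝ))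
        (h : C(M, Fin k → AddCircle (1 : ℝ))), IsUnit A.det ∧
        (∀ x i, h (f x) i = ∑ j, A i j • h x j + b i) ∧ UnstInj f h] := by
  tfae_have 1 → 2 := by
    rintro ⟨m, A, h, h1, -, h3⟩
    exact ⟨m, A, 0, ⟨h, h.continuous⟩, h1, fun x i => by
      rw [Pi.zero_apply, add_zero]
      exact h3 x i, univ, Filter.univ_mem, fun x y _ hxy => h.injective hxy⟩
  tfae_have 1 → 3 := by
    rintro ⟨m, A, h, h1, -, h3⟩
    exact ⟨m, A, 0, ⟨h, h.continuous⟩, h1, fun x i => by
      rw [Pi.zero_apply, add_zero]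
      exact h3 x i, univ, Filter.univ_mem, fun x y _ hxy => h.injective hxy⟩
  tfae_have 2 → 1 := by
    rintro ⟨k, A, b, h, h1, h2, h3⟩
    exact (man_either_semi f Es Eu hA A h1 b h h.continuous h2 (Or.inl h3)).2.1
  tfae_have 3 → 1 := by
    rintro ⟨k, A, b, h, h1, h2, h3⟩
    exact (man_either_semi f Es Eu hA A h1 b h h.continuous h2 (Or.inr h3)).2.1
  tfae_finish

end Pool.Agent.Results.MP_5c499f_an.ToralFactorIff
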