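import Pool.Agent.X104.TorTF

/-!
# MP_5c499f_an: semiconjugacies from Anosov diffeomorphisms to hyperbolic affine automorphisms of
tori of any dimension
-/

set_option autoImplicit false

open scoped Manifold ContDiff Topology
open Set Filter

namespace Pool.Agent.Results.MP_5c499f_an.ToralFactorRigidity

open Pool.Agent.H721R2 Pool.Agent.H789R2.AN Pool.Agent.H789R2.GP Pool.Agent.TH289
open Pool.Agent.TH289.L (Light)
open Pool.Agent.W740.TU Pool.Agent.X104.TorFac Pool.Agent.X104.TorSys
open Pool.Agent.H779R2.To (HypMat)

/-- **Semiconjugacies to hyperbolic affine automorphisms of tori of any dimension.**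
Let `f` be a `C¹` Anosov diffeomorphism of a closed connected smooth manifold `M` (with a metric that
gives its topology), let `A` be an integer `m × m` matrix with determinant `±1` and without
eigenvalues of modulus one (`m` has nothing to do with the dimension of `M`), let `b ∈ (ℝ/ℤ)ᵐ`, and
let `h : M → (ℝ/ℤ)ᵐ` be continuous (not assumed to be onto) with `h ∘ f = A ∘ h + b`.  The following
are equivalent.

1. `f` is transitive and its topological entropy is at most that of `x ↦ A x + b` on the image of `h`.
2. `h` is injective on the homoclinic classes.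
3. The fibres of `h` meet the homoclinic classes in a bounded number of points.
4. The fibres of `h` are countable.
5. The number of points of the fibres of `h` is bounded.
6. `h` is injective on the local stable sets of some size.
7. `h` is injective on the local unstable sets of some size.
8. `h` is light along the stable sets or along the unstable sets and, for one periodic point `p`, the
   fibre of `h p` meets the stable or the unstable set of `p` in a finite set only.
9. `h` is locally injective.

If they hold, then `f` is topologically conjugate to a hyperbolic toral automorphism. -/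
theorem result (E : Type*) [NormedAddCommGroup E] [NormedSpace ℝ E] [FiniteDimensional ℝ E]
    (M : Type*) [MetricSpace M] [CompactSpace M] [ConnectedSpace M]
    [ChartedSpace E M] [IsManifold 𝓘(ℝ, E) ∞ M] (f : Diffeomorph 𝓘(ℝ, E) 𝓘(ℝ, E) M M 1)
    (Es Eu : ∀ x : M, Submodule ℝ (TangentSpace 𝓘(ℝ, E) x)) (hA : IsAnosov f Es Eu)
    (m : ℕ) (A : Matrix (Fin m) (Fin m) ℤ) (hdet : IsUnit A.det) (hyp : HypMat A)
    (b : Fin m → AddCircle (1 : ℝ)) (h : C(M, Fin m → AddCircle (1 : ℝ)))
    (hh : ∀ x i, h (f x) i = ∑ j, A i j • h x j + b i) :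
    List.TFAE [
      TopTransitive f ∧ Dynamics.coverEntropy f univ ≤
        Dynamics.coverEntropy (fun x i => ∑ j, A i j • x j + b i) (range h),
      ∀ x y, h x = h y → Asym f x y → Asym f.symm x y → x = y,
      ∃ B : ℕ, ∀ x, {y | h y = h x ∧ Asym f x y ∧ Asym f.symm x y}.encard ≤ B,
      ∀ y, (h ⁻¹' {y}).Countable,
      ∃ N : ℕ, ∀ y, (h ⁻¹' {y}).encard ≤ N,
      UnstInj f h,
      UnstInj f.symm h,
      (Light f.toHomeomorph h ∨ Light f.toHomeomorph.symm h) ∧
        ∃ p ∈ Function.periodicPts f, (h ⁻¹' {h p} ∩ {y | Asym f p y}).Finite ∨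
          (h ⁻¹' {h p} ∩ {y | Asym f.symm p y}).Finite,
      ∀ x, ∃ U ∈ 𝓝 x, InjOn h U] ∧
    ((∀ y, (h ⁻¹' {y}).Countable) → ∃ (n : ℕ) (A' : Matrix (Fin n) (Fin n) ℤ)
      (ψ : M ≃ₜ (Fin n → AddCircle (1 : ℝ))),
        IsUnit A'.det ∧ HypMat A' ∧ ∀ x i, ψ (f x) i = ∑ j, A' i j • ψ x j) := by
  have key := Pool.Agent.X104.TorTF.man_tor_tfae f Es Eu hA A hdet hyp b h h.continuous
    (fun x => funext fun i => hh x i)
  refine ⟨key, fun h4 => ?_⟩
  exact (man_either_semi f Es Eu hA A hdet b h h.continuous hh
    (Or.inl ((key.out 3 6).1 h4))).2.1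

end Pool.Agent.Results.MP_5c499f_an.ToralFactorRigidity
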